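import Pool.Agent.Helper98.SPR.Stmts

/-!
# Row HT of the sparse-root project (helper98): heights in `E_k` are below `t ^ q`
-/

namespace SPR

noncomputable section

open Filter Topology MeasureTheory

namespace HTpf

variable {V : Type} {c : V → V → ℕ}

theorem near_mono {r r' : ℕ} {x y : V} (h : Near c r x y) (hr : r ≤ r') : Near c r' x y := by
  induction hr with
  | refl => exact h
  | step _ ih => exact Or.inl ih

theorem near_trans {r : ℕ} {x y : V} (h : Near c r x y) :
    ∀ {r' : ℕ} {z : V}, Near c r' y z → Near c (r + r') x z := by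
  intro r'
  induction r' with
  | zero =>
    intro z hz
    have : y = z := hz
    rw [← this]
    exact h
  | succ n ih =>
    intro z hz
    rcases hz with hz | ⟨u, hu, hc⟩
    · exact Or.inl (ih hz)
    · exact Or.inr ⟨u, ih hu, hc⟩

theorem near_symm (hc : ∀ x y, c x y = c y x) : ∀ {r : ℕ} {x y : V}, Near c r x y → Near c r y x := by
  intro r
  induction r with
  | zero =>
    intro x y h
    have h' : x = y := h
    exact h'.symm
  | succ n ih =>
    intro x y h
    rcases h with h | ⟨u, hu, hcu⟩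
    · exact Or.inl (ih h)
    · have h1 : Near c 1 y u := Or.inr ⟨y, rfl, by rw [hc]; exact hcu⟩
      have h2 := near_trans h1 (ih hu)
      rw [Nat.add_comm] at h2
      exact h2

theorem nearSet_mono {r r' : ℕ} {S : Finset V} {v : V} (h : NearSet c r S v) (hr : r ≤ r') :
    NearSet c r' S v := by
  obtain ⟨s, hs, h⟩ := h
  exact ⟨s, hs, near_mono h hr⟩

theorem nearSet_near {r r' : ℕ} {S : Finset V} {v v' : V} (h : NearSet c r S v)
    (h' : Near c r' v v') : NearSet c (r + r') S v' := by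
  obtain ⟨s, hs, h⟩ := h
  exact ⟨s, hs, near_trans h h'⟩

/-- first exit of a walk from a set -/
theorem exit {α : Type} {G : SimpleGraph α} (P : α → Prop) {u v : α} (W : G.Walk u v) :
    P u → ¬ P v → ∃ a b : α, ∃ W1 : G.Walk u a, (∀ x ∈ W1.support, x ∈ W.support ∧ P x) ∧
      G.Adj a b ∧ ¬ P b ∧ b ∈ W.support := by
  induction W with
  | nil => intro h h'; exact absurd h h'
  | @cons u u' v hadj W' ih =>
    intro hu hv
    by_cases hP : P u'
    · obtain ⟨a, b, W1, h1, h2, h3, h4⟩ := ih hP hv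
      refine ⟨a, b, SimpleGraph.Walk.cons hadj W1, ?_, h2, h3, ?_⟩
      · intro x hx
        rw [SimpleGraph.Walk.support_cons, List.mem_cons] at hx
        rcases hx with hx | hx
        · subst hx
          exact ⟨SimpleGraph.Walk.start_mem_support _, hu⟩
        · refine ⟨?_, (h1 x hx).2⟩
          rw [SimpleGraph.Walk.support_cons, List.mem_cons]
          exact Or.inr (h1 x hx).1
      · rw [SimpleGraph.Walk.support_cons, List.mem_cons]
        exact Or.inr h4
    · refine ⟨u, u', SimpleGraph.Walk.nil, ?_, hadj, hP, ?_⟩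
      · intro x hx
        rw [SimpleGraph.Walk.support_nil, List.mem_singleton] at hx
        subst hx
        exact ⟨SimpleGraph.Walk.start_mem_support _, hu⟩
      · rw [SimpleGraph.Walk.support_cons, List.mem_cons]
        exact Or.inr (SimpleGraph.Walk.start_mem_support _)

variable {K : ℝ}

theorem fd_pos (M : DiscModel K c) (z : ℂ) (d : Fin M.N) : 0 < fd M.ctr M.rad z d := by
  unfold fd
  have := M.rad_pos d
  have h2 : 0 ≤ dist (M.ctr d) z := dist_nonneg
  linarith

theorem reg_succ (M : DiscModel K c) {k : ℕ} {o : Fin M.N} {p : ℂ} {d : Fin M.N}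
    (h : M.Reg k o p d) : M.Reg (k + 1) o p d := by
  obtain ⟨h1, h2⟩ := h
  have hr := M.rad_pos o
  have hf := fd_pos M p d
  have h2k : (0 : ℝ) < 2 ^ k := by positivity
  refine ⟨?_, ?_⟩
  · calc fd M.ctr M.rad (M.ctr o) d ≤ 2 ^ k * M.rad o := h1
      _ ≤ 2 ^ (k + 1) * M.rad o := by
        rw [pow_succ]
        nlinarith [mul_pos h2k hr]
  · calc M.rad o < 2 ^ k * fd M.ctr M.rad p d := h2
      _ ≤ 2 ^ (k + 1) * fd M.ctr M.rad p d := by
        rw [pow_succ]
        nlinarith [mul_pos h2k hf]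

/-- the numerical contradiction -/
theorem num (K a : ℝ) (b q j m : ℕ) (hK : 1 ≤ K) (ha : 0 < a) (hq : 2 * j < q) (hmq : m + j < q) :
    ∃ t0 : ℝ, 1 ≤ t0 ∧ ∀ (s : ℝ) (t : ℕ), 1 ≤ s → t0 * s ^ 2 ≤ t →
      s * (t : ℝ) ^ m + 200 * (1 + K) ^ 2 * (((t : ℝ) ^ j + 1) *
        (K * (1 + (Real.log s + b * Real.log (2 * (t : ℝ) ^ q)) / a))) <
        ((t ^ q / (2 * t ^ j + 1) : ℕ) : ℝ) := by
  set C : ℝ := 1 + (2 + b + 2 * b * q) / a with hC
  have hCpos : 0 < C := by positivity
  set E : ℝ := 4800 * (1 + K) ^ 2 * K * C with hE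
  have hK0 : 0 < K := by linarith
  have hEpos : 0 < E := by positivity
  refine ⟨12 + E ^ 2, by nlinarith [sq_nonneg E], ?_⟩
  intro s t hs hst
  have hs2 : s ≤ s ^ 2 := by nlinarith
  have h12 : (12 : ℝ) * s ≤ t := by nlinarith [sq_nonneg E, mul_nonneg (sq_nonneg E) (sq_nonneg s)]
  have ht12 : (12 : ℝ) ≤ t := by nlinarith
  have hEt : E ^ 2 ≤ t := by nlinarith [sq_nonneg E, mul_nonneg (sq_nonneg E) (sub_nonneg.2 hs2)]
  have ht1 : (1 : ℝ) ≤ t := by linarith
  have ht0 : (0 : ℝ) < t := by linarith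
  have hst' : s ≤ t := by nlinarith
  -- logarithms
  have hsq1 : (1 : ℝ) ≤ Real.sqrt t := by
    rw [show (1 : ℝ) = Real.sqrt 1 by simp]
    exact Real.sqrt_le_sqrt ht1
  have hlogt : Real.log t ≤ 2 * Real.sqrt t := by
    have h1 : Real.log (Real.sqrt t) ≤ Real.sqrt t := by
      have := Real.log_le_sub_one_of_pos (show (0 : ℝ) < Real.sqrt t by linarith)
      linarith
    have h2 : Real.log (Real.sqrt t) = Real.log t / 2 := Real.log_sqrt ht0.le
    linarith
  have hlogs : Real.log s ≤ 2 * Real.sqrt t :=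
    le_trans (Real.log_le_log (by linarith) hst') hlogt
  have hlog2 : Real.log 2 ≤ 1 := by
    have := Real.log_le_sub_one_of_pos (show (0 : ℝ) < 2 by norm_num)
    linarith
  have hlogq : Real.log (2 * (t : ℝ) ^ q) ≤ 1 + q * (2 * Real.sqrt t) := by
    rw [Real.log_mul (by norm_num) (by positivity), Real.log_pow]
    have : (q : ℝ) * Real.log t ≤ q * (2 * Real.sqrt t) :=
      mul_le_mul_of_nonneg_left hlogt (Nat.cast_nonneg q)
    linarith
  have hD : 1 + (Real.log s + b * Real.log (2 * (t : ℝ) ^ q)) / a ≤ C * Real.sqrt t := by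
    have h1 : Real.log s + b * Real.log (2 * (t : ℝ) ^ q) ≤
        (2 + b + 2 * b * q) * Real.sqrt t := by
      have hb : (0 : ℝ) ≤ b := Nat.cast_nonneg b
      have h3 : (b : ℝ) * Real.log (2 * (t : ℝ) ^ q) ≤ b * (1 + q * (2 * Real.sqrt t)) :=
        mul_le_mul_of_nonneg_left hlogq hb
      have h4 : (b : ℝ) * 1 ≤ b * Real.sqrt t := mul_le_mul_of_nonneg_left hsq1 hb
      nlinarith
    have h2 : (Real.log s + b * Real.log (2 * (t : ℝ) ^ q)) / a ≤
        (2 + b + 2 * b * q) * Real.sqrt t / a := div_le_div_of_nonneg_right h1 ha.le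
    have h3 : C * Real.sqrt t = Real.sqrt t + (2 + b + 2 * b * q) * Real.sqrt t / a := by
      rw [hC]; field_simp
    rw [h3]
    linarith
  have hEs : E ≤ Real.sqrt t := by
    rw [show E = Real.sqrt (E ^ 2) by rw [Real.sqrt_sq hEpos.le]]
    exact Real.sqrt_le_sqrt hEt
  -- the main quantity `X = t ^ (q - j)`
  set X : ℝ := (t : ℝ) ^ (q - j) with hX
  have hXm : (t : ℝ) ^ (m + 1) ≤ X := pow_le_pow_right₀ ht1 (by omega)
  have hXj : (t : ℝ) ^ (j + 1) ≤ X := pow_le_pow_right₀ ht1 (by omega)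
  have hX1 : (t : ℝ) ≤ X := by
    calc (t : ℝ) = (t : ℝ) ^ 1 := (pow_one _).symm
      _ ≤ X := pow_le_pow_right₀ ht1 (by omega)
  have hm0 : (0 : ℝ) ≤ (t : ℝ) ^ m := by positivity
  have hj0 : (0 : ℝ) < (t : ℝ) ^ j := by positivity
  have hj1 : (1 : ℝ) ≤ (t : ℝ) ^ j := one_le_pow₀ ht1
  -- first summand
  have hA : s * (t : ℝ) ^ m ≤ X / 12 := by
    have : 12 * (s * (t : ℝ) ^ m) ≤ (t : ℝ) ^ (m + 1) := by
      rw [pow_succ]
      nlinarith [mul_le_mul_of_nonneg_right h12 hm0]
    linarith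
  -- second summand
  have hB : 200 * (1 + K) ^ 2 * (((t : ℝ) ^ j + 1) *
      (K * (1 + (Real.log s + b * Real.log (2 * (t : ℝ) ^ q)) / a))) ≤ X / 12 := by
    have h1 : 200 * (1 + K) ^ 2 * (((t : ℝ) ^ j + 1) *
        (K * (1 + (Real.log s + b * Real.log (2 * (t : ℝ) ^ q)) / a))) ≤
        200 * (1 + K) ^ 2 * ((2 * (t : ℝ) ^ j) * (K * (C * Real.sqrt t))) := by
      apply mul_le_mul_of_nonneg_left _ (by positivity)
      calc ((t : ℝ) ^ j + 1) * (K * (1 + (Real.log s + b * Real.log (2 * (t : ℝ) ^ q)) / a))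
          ≤ ((t : ℝ) ^ j + 1) * (K * (C * Real.sqrt t)) := by
            apply mul_le_mul_of_nonneg_left _ (by positivity)
            exact mul_le_mul_of_nonneg_left hD hK0.le
        _ ≤ (2 * (t : ℝ) ^ j) * (K * (C * Real.sqrt t)) := by
            apply mul_le_mul_of_nonneg_right _ (by positivity)
            linarith
    have h2 : 200 * (1 + K) ^ 2 * ((2 * (t : ℝ) ^ j) * (K * (C * Real.sqrt t))) =
        (t : ℝ) ^ j * (E * Real.sqrt t) / 12 := by
      rw [hE]; ring
    have h3 : E * Real.sqrt t ≤ t := by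
      calc E * Real.sqrt t ≤ Real.sqrt t * Real.sqrt t :=
            mul_le_mul_of_nonneg_right hEs (Real.sqrt_nonneg _)
        _ = t := Real.mul_self_sqrt ht0.le
    have h4 : (t : ℝ) ^ j * (E * Real.sqrt t) ≤ X := by
      calc (t : ℝ) ^ j * (E * Real.sqrt t) ≤ (t : ℝ) ^ j * t :=
            mul_le_mul_of_nonneg_left h3 hj0.le
        _ = (t : ℝ) ^ (j + 1) := (pow_succ _ _).symm
        _ ≤ X := hXj
    rw [h2] at h1
    linarith
  -- the right side
  have hR : X / 3 - 1 < ((t ^ q / (2 * t ^ j + 1) : ℕ) : ℝ) := by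
    have h1 : t ^ q < (2 * t ^ j + 1) * (t ^ q / (2 * t ^ j + 1) + 1) :=
      Nat.lt_mul_div_succ _ (by positivity)
    have h2 : ((t ^ q : ℕ) : ℝ) < (((2 * t ^ j + 1) * (t ^ q / (2 * t ^ j + 1) + 1) : ℕ) : ℝ) := by
      exact_mod_cast h1
    push_cast at h2
    set N : ℝ := (((t ^ q / (2 * t ^ j + 1) : ℕ)) : ℝ) with hN
    have hN0 : 0 ≤ N := Nat.cast_nonneg _
    have h3 : (t : ℝ) ^ q = X * (t : ℝ) ^ j := by
      rw [hX, ← pow_add]
      congr 1
      omega
    have h4 : (2 * (t : ℝ) ^ j + 1) * (N + 1) ≤ (3 * (t : ℝ) ^ j) * (N + 1) :=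
      mul_le_mul_of_nonneg_right (by linarith) (by linarith)
    have h5 : X * (t : ℝ) ^ j < (3 * (N + 1)) * (t : ℝ) ^ j := by
      calc X * (t : ℝ) ^ j = (t : ℝ) ^ q := h3.symm
        _ < (2 * (t : ℝ) ^ j + 1) * (N + 1) := h2
        _ ≤ (3 * (t : ℝ) ^ j) * (N + 1) := h4
        _ = (3 * (N + 1)) * (t : ℝ) ^ j := by ring
    have h6 : X < 3 * (N + 1) := lt_of_mul_lt_mul_right h5 hj0.le
    linarith
  have h1X : 12 ≤ X := by linarith
  linarith

end HTpf

open HTpf

open Classical in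
theorem st_HT : ST_EDGE → ST_CROSS → ST_LIFT → ST_HT := by
  intro hEDGE hCROSS hLIFT K a b q j m hK ha hq hmq
  obtain ⟨t0, ht01, hnum⟩ := num K a b q j m hK ha hq hmq
  refine ⟨t0, ?_⟩
  intro s t hs hst V _ c M S Net w p k hc hw hnet hcard hdeg d0 hd0
  by_contra hfar
  have ht1 : 1 ≤ t := by
    have : (1 : ℝ) ≤ t := by nlinarith [sq_nonneg s]
    exact_mod_cast this
  set o := M.root w with ho
  set r := t ^ j with hr
  set T := t ^ q with hT
  have hrT : r ≤ T := Nat.pow_le_pow_right ht1 (by omega)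
  -- levels
  have hlev : ∀ h : ℕ, 1 ≤ h → h ≤ T → ∃ y, M.InE k o p y ∧ NearSet c h S (M.own y) ∧
      ¬ NearSet c (h - 1) S (M.own y) := by
    intro h h1 hhT
    obtain ⟨W, hW⟩ := hd0
    have hPo : NearSet c (h - 1) S (M.own o) := by
      refine ⟨w, hw, ?_⟩
      rw [ho, M.own_root]
      exact near_mono (r := 0) rfl (Nat.zero_le _)
    have hPd : ¬ NearSet c (h - 1) S (M.own d0) :=
      fun hh => hfar (nearSet_mono hh (by omega))
    obtain ⟨x, y, W1, hW1, hadj, hy, hyW⟩ :=
      exit (fun d => NearSet c (h - 1) S (M.own d)) W hPo hPd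
    refine ⟨y, ⟨W1.concat hadj, ?_⟩, ?_, hy⟩
    · intro u hu
      rw [SimpleGraph.Walk.support_concat, List.mem_append] at hu
      rcases hu with hu | hu
      · exact hW u (hW1 u hu).1
      · rw [List.mem_singleton] at hu
        subst hu
        exact hW _ hyW
    · have hx := (hW1 x (SimpleGraph.Walk.end_mem_support _)).2
      have h2 := (hEDGE K V c M hK x y hadj).2.1
      have hn : Near c 1 (M.own x) (M.own y) := by
        rcases h2 with h2 | h2 | h2
        · exact Or.inl h2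
        · exact Or.inr ⟨_, rfl, h2⟩
        · exact Or.inr ⟨_, rfl, by rw [hc]; exact h2⟩
      have := nearSet_near hx hn
      rwa [Nat.sub_add_cancel h1] at this
  set M' := T / (2 * r + 1) with hM'
  have hbound : ∀ l : Fin M', 1 ≤ (2 * r + 1) * (l.1 + 1) ∧ (2 * r + 1) * (l.1 + 1) ≤ T := by
    intro l
    refine ⟨Nat.succ_le_of_lt (by positivity), ?_⟩
    calc (2 * r + 1) * (l.1 + 1) ≤ (2 * r + 1) * M' := Nat.mul_le_mul_left _ l.2
      _ ≤ T := Nat.mul_div_le _ _
  choose y hyE hyN hyN' using fun l : Fin M' => hlev _ (hbound l).1 (hbound l).2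
  have hNS : ∀ l, NearSet c T S (M.own (y l)) := fun l => nearSet_mono (hyN l) (hbound l).2
  choose z hzNet hzN using fun l : Fin M' => hnet _ (hNS l)
  choose W hWN Q hQ hQ' using fun l : Fin M' => hLIFT K V c M r _ _ (y l) hK rfl (hzN l)
  -- disjointness of the balls
  have hdisj : ∀ l l' : Fin M', l < l' → ∀ v, Near c r (M.own (y l)) v →
      Near c r (M.own (y l')) v → False := by
    intro l l' hll v h1 h2
    have h3 : Near c (r + r) (M.own (y l)) (M.own (y l')) := near_trans h1 (near_symm hc h2)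
    have h4 := nearSet_near (hyN l) h3
    apply hyN' l'
    refine nearSet_mono h4 ?_
    have h5 : (l : ℕ) + 1 ≤ l' := hll
    have h6 : (2 * r + 1) * (l.1 + 1 + 1) ≤ (2 * r + 1) * (l'.1 + 1) :=
      Nat.mul_le_mul_left _ (by omega)
    have h7 : (2 * r + 1) * (l.1 + 1 + 1) = (2 * r + 1) * (l.1 + 1) + (2 * r + 1) := by ring
    omega
  have hdisj' : ∀ l l' : Fin M', l ≠ l' → ∀ v, Near c r (M.own (y l)) v →
      Near c r (M.own (y l')) v → False := by
    intro l l' hll v h1 h2
    rcases lt_or_gt_of_ne hll with h | h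
    · exact hdisj l l' h v h1 h2
    · exact hdisj l' l h v h2 h1
  -- the two kinds of levels
  set A := Finset.univ.filter (fun l : Fin M' => ∀ x ∈ (W l).support, M.Reg (k + 1) o p x) with hA
  have hEk1 : ∀ l (x : Fin M.N) (W1 : M.TG.Walk (y l) x),
      (∀ u ∈ W1.support, M.Reg (k + 1) o p u) → M.InE (k + 1) o p x := by
    intro l x W1 hW1
    obtain ⟨W0, hW0⟩ := hyE l
    refine ⟨W0.append W1, ?_⟩
    intro u hu
    rw [SimpleGraph.Walk.mem_support_append_iff] at hu
    rcases hu with hu | hu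
    · exact reg_succ M (hW0 u hu)
    · exact hW1 u hu
  have hAcard : (A.card : ℝ) ≤ s * (t : ℝ) ^ m := by
    refine le_trans ?_ hcard
    norm_cast
    refine Finset.card_le_card_of_injOn z ?_ ?_
    · intro l hl
      have hl' : ∀ x ∈ (W l).support, M.Reg (k + 1) o p x := by
        have : l ∈ A := hl
        rw [hA, Finset.mem_filter] at this
        exact this.2
      rw [Finset.mem_coe, Finset.mem_filter]
      exact ⟨hzNet l, hEk1 l _ (W l) hl'⟩
    · intro l _ l' _ hll
      by_contra hne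
      have h2 := hzN l'
      rw [← hll] at h2
      exact hdisj' l l' hne _ (hzN l) h2
  -- crossings
  set D : ℝ := (Real.log s + b * Real.log (2 * (t : ℝ) ^ q)) / a with hD
  set B := {l : Fin M' // ¬ ∀ x ∈ (W l).support, M.Reg (k + 1) o p x} with hB
  have hpre : ∀ l : B, ∃ x x' : Fin M.N, ∃ W1 : M.TG.Walk (y l.1) x,
      (∀ u ∈ W1.support, u ∈ (W l.1).support ∧ M.Reg (k + 1) o p u) ∧ M.TG.Adj x x' ∧
        ¬ M.Reg (k + 1) o p x' := by
    intro l
    have hl := l.2
    push Not at hl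
    obtain ⟨x0, hx0, hx0R⟩ := hl
    have hy0 : M.Reg (k + 1) o p (y l.1) := by
      obtain ⟨W0, hW0⟩ := hyE l.1
      exact reg_succ M (hW0 _ (SimpleGraph.Walk.end_mem_support _))
    obtain ⟨x, x', W1, h1, h2, h3, _⟩ :=
      exit (fun d => M.Reg (k + 1) o p d) ((W l.1).takeUntil x0 hx0) hy0 hx0R
    refine ⟨x, x', W1, ?_, h2, h3⟩
    intro u hu
    exact ⟨SimpleGraph.Walk.support_takeUntil_subset_support _ _ (h1 u hu).1, (h1 u hu).2⟩
  choose x1 x2 W1 hW1 hx12 hx2 using hpre
  have hdegD : ∀ (l : B), ∀ u ∈ (W1 l).support, (deg c (M.own u) : ℝ) ≤ D := by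
    intro l u hu
    have h1 : M.InE (k + 1) o p u := by
      refine hEk1 l.1 u ((W1 l).takeUntil u hu) ?_
      intro v hv
      exact (hW1 l v (SimpleGraph.Walk.support_takeUntil_subset_support _ _ hv)).2
    have h2 : NearSet c (2 * t ^ q) S (M.own u) := by
      have h3 := nearSet_near (hNS l.1) (hWN l.1 u (hW1 l u hu).1)
      refine nearSet_mono h3 ?_
      have : 2 * t ^ q = T + T := by rw [hT]; ring
      rw [this]
      exact Nat.add_le_add_left hrT _
    have h3 := hdeg u h1 h2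
    have hs0 : 0 < s := by linarith
    have ht0' : (0 : ℝ) < t := by exact_mod_cast ht1
    have h4 : a * (deg c (M.own u) : ℝ) ≤ Real.log (s * (2 * (t : ℝ) ^ q) ^ b) := by
      rw [← Real.log_exp (a * (deg c (M.own u) : ℝ))]
      exact Real.log_le_log (Real.exp_pos _) h3
    rw [Real.log_mul (by positivity) (by positivity), Real.log_pow] at h4
    rw [hD, le_div_iff₀ ha]
    linarith
  set L : ℝ := ((t : ℝ) ^ j + 1) * (K * (1 + D)) with hL
  have hcardL : ∀ l : B, (((W1 l).support.toFinset.card : ℕ) : ℝ) ≤ L := by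
    intro l
    set Q1 := (W1 l).support.toFinset.image M.own with hQ1
    have hQsub : Q1 ⊆ Q l.1 := by
      intro v hv
      rw [hQ1, Finset.mem_image] at hv
      obtain ⟨u, hu, rfl⟩ := hv
      exact hQ' l.1 u (hW1 l u (List.mem_toFinset.1 hu)).1
    have hQcard : (Q1.card : ℝ) ≤ (t : ℝ) ^ j + 1 := by
      have : Q1.card ≤ r + 1 := le_trans (Finset.card_le_card hQsub) (hQ l.1)
      calc (Q1.card : ℝ) ≤ ((r + 1 : ℕ) : ℝ) := by exact_mod_cast this
        _ = (t : ℝ) ^ j + 1 := by rw [hr]; push_cast; ring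
    have hsub : (W1 l).support.toFinset ⊆
        Q1.biUnion (fun v => Finset.univ.filter (fun d => M.own d = v)) := by
      intro u hu
      rw [Finset.mem_biUnion]
      exact ⟨M.own u, Finset.mem_image_of_mem _ hu, by simp⟩
    have hterm : ∀ v ∈ Q1, ((Finset.univ.filter (fun d => M.own d = v)).card : ℝ) ≤
        K * (1 + D) := by
      intro v hv
      refine le_trans (M.size v) ?_
      rw [hQ1, Finset.mem_image] at hv
      obtain ⟨u, hu, rfl⟩ := hv
      have := hdegD l u (List.mem_toFinset.1 hu)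
      exact mul_le_mul_of_nonneg_left (by linarith) (by linarith)
    have hy1 : y l.1 ∈ (W1 l).support := SimpleGraph.Walk.start_mem_support _
    have hD0 : 0 ≤ D := le_trans (Nat.cast_nonneg _) (hdegD l _ hy1)
    calc (((W1 l).support.toFinset.card : ℕ) : ℝ)
        ≤ ((Q1.biUnion (fun v => Finset.univ.filter (fun d => M.own d = v))).card : ℝ) := by
          exact_mod_cast Finset.card_le_card hsub
      _ ≤ ((∑ v ∈ Q1, (Finset.univ.filter (fun d => M.own d = v)).card : ℕ) : ℝ) := by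
          exact_mod_cast Finset.card_biUnion_le
      _ = ∑ v ∈ Q1, ((Finset.univ.filter (fun d => M.own d = v)).card : ℝ) := by push_cast; rfl
      _ ≤ ∑ v ∈ Q1, K * (1 + D) := Finset.sum_le_sum hterm
      _ = (Q1.card : ℝ) * (K * (1 + D)) := by rw [Finset.sum_const, nsmul_eq_mul]
      _ ≤ L := by
          rw [hL]
          apply mul_le_mul_of_nonneg_right hQcard
          have : 0 ≤ K := by linarith
          positivity
  have hBcard : (Fintype.card B : ℝ) ≤ 200 * (1 + K) ^ 2 * L := by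
    refine hCROSS K V c M o p k B (fun l => y l.1) x1 x2 W1 L hK ?_ ?_ hx12 hx2 ?_ hcardL
    · intro l
      obtain ⟨W0, hW0⟩ := hyE l.1
      exact hW0 _ (SimpleGraph.Walk.end_mem_support _)
    · intro l u hu
      exact (hW1 l u hu).2
    · intro l l' hll
      rw [Finset.disjoint_left]
      intro u hu hu'
      rw [List.mem_toFinset] at hu hu'
      have hne : l.1 ≠ l'.1 := fun h => hll (Subtype.ext h)
      exact hdisj' l.1 l'.1 hne _ (hWN l.1 u (hW1 l u hu).1) (hWN l'.1 u (hW1 l' u hu').1)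
  -- total
  have htot : A.card + Fintype.card B = M' := by
    have h1 : Fintype.card B =
        (Finset.univ.filter (fun l : Fin M' => ¬ ∀ x ∈ (W l).support, M.Reg (k + 1) o p x)).card := by
      exact Fintype.card_subtype _
    rw [h1, hA]
    have h2 := Finset.card_filter_add_card_filter_not (s := (Finset.univ : Finset (Fin M')))
      (fun l : Fin M' => ∀ x ∈ (W l).support, M.Reg (k + 1) o p x)
    rw [h2, Finset.card_univ, Fintype.card_fin]
  have htotR : (A.card : ℝ) + (Fintype.card B : ℝ) = (M' : ℝ) := by exact_mod_cast htot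
  have hfin := hnum s t hs hst
  rw [← hD, ← hL] at hfin
  have hM'' : ((t ^ q / (2 * t ^ j + 1) : ℕ) : ℝ) = (M' : ℝ) := rfl
  rw [hM''] at hfin
  linarith

end

end SPR
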